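import Mathlib

/-!
# The integral of `(1 - |b|²)^δ` over the unit ball (helper233)
-/

set_option autoImplicit false

open MeasureTheory Set
open scoped ENNReal

namespace Pool.Agent.Q233.MX

/-- sum of squares -/
def sq {m : ℕ} (y : Fin m → ℝ) : ℝ := ∑ i, y i ^ 2

lemma sq_nonneg' {m : ℕ} (y : Fin m → ℝ) : 0 ≤ sq y :=
  Finset.sum_nonneg fun _ _ => sq_nonneg _

lemma sq_smul {m : ℕ} (r : ℝ) (y : Fin m → ℝ) : sq (r • y) = r ^ 2 * sq y := by
  unfold sq
  rw [Finset.mul_sum]
  exact Finset.sum_congr rfl fun i _ => by rw [Pi.smul_apply, smul_eq_mul]; ring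

lemma sq_meas {m : ℕ} : Measurable (sq (m := m)) := by
  unfold sq
  fun_prop

lemma sq_cont {m : ℕ} : Continuous (sq (m := m)) := by
  unfold sq
  fun_prop

/-- the integral over the unit ball -/
noncomputable def cc (m : ℕ) (δ : ℝ) : ℝ≥0∞ :=
  ∫⁻ b : Fin m → ℝ in {b | sq b < 1}, ENNReal.ofReal ((1 - sq b) ^ δ)

lemma lint_gamma {s : ℝ} (hs : 0 < s) :
    ∫⁻ t in Ioi (0:ℝ), ENNReal.ofReal (Real.exp (-t) * t ^ (s - 1)) =
      ENNReal.ofReal (Real.Gamma s) := by
  rw [Real.Gamma_eq_integral hs,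
    ofReal_integral_eq_lintegral_ofReal (Real.GammaIntegral_convergent hs)]
  refine (ae_restrict_iff' measurableSet_Ioi).2 (Filter.Eventually.of_forall fun t ht => ?_)
  have : (0:ℝ) < t := ht
  positivity

lemma lint_gauss (m : ℕ) : ∫⁻ y : Fin m → ℝ, ENNReal.ofReal (Real.exp (-sq y)) =
    ENNReal.ofReal (√Real.pi ^ m) := by
  have h1 : ∀ y : Fin m → ℝ, Real.exp (-sq y) = ∏ i, Real.exp (-(1:ℝ) * y i ^ 2) := by
    intro y
    rw [← Real.exp_sum]
    congr 1
    unfold sq
    rw [← Finset.sum_neg_distrib]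
    exact Finset.sum_congr rfl fun i _ => by ring
  have h2 : Integrable (fun y : Fin m → ℝ => ∏ i, Real.exp (-(1:ℝ) * y i ^ 2)) := by
    exact Integrable.fintype_prod (f := fun (_ : Fin m) (t : ℝ) => Real.exp (-(1:ℝ) * t ^ 2))
      fun i => integrable_exp_neg_mul_sq one_pos
  simp only [h1]
  rw [← ofReal_integral_eq_lintegral_ofReal h2
    (Filter.Eventually.of_forall fun y => Finset.prod_nonneg fun i _ => (Real.exp_pos _).le)]
  congr 1
  have h3 := integral_fintype_prod_volume_eq_prod (𝕜 := ℝ)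
    (fun (_ : Fin m) (t : ℝ) => Real.exp (-(1:ℝ) * t ^ 2))
  rw [h3]
  simp only [integral_gaussian, div_one, Finset.prod_const, Finset.card_univ, Fintype.card_fin]

/-- the double integral, as a function -/
noncomputable def dbl {m : ℕ} (δ : ℝ) (r : ℝ) (y : Fin m → ℝ) : ℝ≥0∞ :=
  ENNReal.ofReal (Real.exp (-r)) * (if sq y < r then ENNReal.ofReal ((r - sq y) ^ δ) else 0)

lemma dbl_meas {m : ℕ} (δ : ℝ) : Measurable (fun p : ℝ × (Fin m → ℝ) => dbl δ p.1 p.2) := by
  unfold dbl
  have h1 : Measurable fun p : ℝ × (Fin m → ℝ) => sq p.2 := sq_meas.comp measurable_snd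
  refine Measurable.mul (by fun_prop) ?_
  refine Measurable.ite (measurableSet_lt h1 measurable_fst) ?_ measurable_const
  exact ENNReal.measurable_ofReal.comp ((measurable_fst.sub h1).pow_const δ)

lemma inner_r {m : ℕ} {δ : ℝ} (hδ : 0 ≤ δ) (y : Fin m → ℝ) :
    ∫⁻ r in Ioi (0:ℝ), dbl δ r y =
      ENNReal.ofReal (Real.exp (-sq y)) * ENNReal.ofReal (Real.Gamma (δ + 1)) := by
  have hS := sq_nonneg' y
  rw [← lint_gamma (by linarith : 0 < δ + 1)]
  have e1 : ∫⁻ r in Ioi (0:ℝ), dbl δ r y = ∫⁻ r : ℝ, (Ioi (sq y)).indicator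
      (fun r => ENNReal.ofReal (Real.exp (-r) * (r - sq y) ^ δ)) r := by
    rw [← lintegral_indicator measurableSet_Ioi]
    refine lintegral_congr fun r => ?_
    by_cases h : sq y < r
    · have hr : r ∈ Ioi (0:ℝ) := lt_of_le_of_lt hS h
      rw [indicator_of_mem hr, indicator_of_mem (show r ∈ Ioi (sq y) from h)]
      unfold dbl
      rw [if_pos h, ENNReal.ofReal_mul (Real.exp_pos _).le]
    · rw [indicator_of_notMem (show r ∉ Ioi (sq y) from h)]
      by_cases hr : r ∈ Ioi (0:ℝ)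
      · rw [indicator_of_mem hr]
        unfold dbl
        rw [if_neg h, mul_zero]
      · rw [indicator_of_notMem hr]
  rw [e1, ← lintegral_add_right_eq_self _ (sq y), ← lintegral_const_mul' _ _ ENNReal.ofReal_ne_top,
    ← lintegral_indicator measurableSet_Ioi]
  refine lintegral_congr fun t => ?_
  by_cases ht : 0 < t
  · rw [indicator_of_mem (show t ∈ Ioi (0:ℝ) from ht),
      indicator_of_mem (show t + sq y ∈ Ioi (sq y) from by simpa using ht),
      ← ENNReal.ofReal_mul (Real.exp_pos _).le]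
    congr 1
    rw [add_sub_cancel_right, ← mul_assoc, ← Real.exp_add]
    congr 1
    · congr 1; ring
    · congr 1; ring
  · rw [indicator_of_notMem (show t ∉ Ioi (0:ℝ) from ht),
      indicator_of_notMem (show t + sq y ∉ Ioi (sq y) from by simpa using ht)]

lemma inner_y {m : ℕ} {δ : ℝ} {r : ℝ} (hr : 0 < r) :
    ∫⁻ y : Fin m → ℝ, dbl δ r y =
      ENNReal.ofReal (Real.exp (-r) * r ^ ((m:ℝ) / 2 + δ)) * cc m δ := by
  have hs : 0 < √r := Real.sqrt_pos.2 hr
  have hs2 : √r ^ 2 = r := Real.sq_sqrt hr.le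
  have hmap := Measure.map_addHaar_smul (volume : Measure (Fin m → ℝ)) hs.ne'
  have hfr : Module.finrank ℝ (Fin m → ℝ) = m := by simp
  have hmy : Measurable fun y : Fin m → ℝ => dbl δ r y :=
    (dbl_meas δ).comp (measurable_const.prodMk measurable_id)
  have h1 : ∫⁻ y : Fin m → ℝ, dbl δ r y =
      ENNReal.ofReal (√r ^ m) * ∫⁻ b : Fin m → ℝ, dbl δ r (√r • b) := by
    have h2 : ∫⁻ b : Fin m → ℝ, dbl δ r (√r • b) =
        ∫⁻ y, dbl δ r y ∂(Measure.map (√r • ·) (volume : Measure (Fin m → ℝ))) :=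
      (lintegral_map hmy (measurable_const_smul _)).symm
    rw [h2, hmap, lintegral_smul_measure, hfr, smul_eq_mul, ← mul_assoc,
      ← ENNReal.ofReal_mul (by positivity), abs_of_pos (by positivity)]
    rw [mul_inv_cancel₀ (by positivity), ENNReal.ofReal_one, one_mul]
  rw [h1]
  unfold cc
  rw [← lintegral_indicator (measurableSet_lt sq_meas measurable_const),
    ← lintegral_const_mul' _ _ ENNReal.ofReal_ne_top,
    ← lintegral_const_mul' _ _ ENNReal.ofReal_ne_top]
  refine lintegral_congr fun b => ?_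
  unfold dbl
  rw [sq_smul, hs2]
  by_cases hb : sq b < 1
  · have h3 : r * sq b < r := by nlinarith
    rw [if_pos h3, indicator_of_mem (show b ∈ {b | sq b < 1} from hb),
      ← ENNReal.ofReal_mul (Real.exp_pos _).le, ← ENNReal.ofReal_mul (by positivity),
      ← ENNReal.ofReal_mul (by positivity)]
    congr 1
    have e1 : r - r * sq b = r * (1 - sq b) := by ring
    rw [e1, Real.mul_rpow hr.le (by linarith), Real.rpow_add hr]
    have e2 : r ^ ((m:ℝ) / 2) = √r ^ m := by
      rw [Real.sqrt_eq_rpow, ← Real.rpow_natCast (r ^ (1 / 2 : ℝ)) m, ← Real.rpow_mul hr.le]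
      congr 1
      ring
    rw [e2]
    ring
  · have h3 : ¬ r * sq b < r := by
      push Not at hb ⊢
      nlinarith
    rw [if_neg h3, indicator_of_notMem (show b ∉ {b | sq b < 1} from hb)]
    simp

/-- **the integral over the unit ball** -/
theorem cc_eq (m : ℕ) {δ : ℝ} (hδ : 0 ≤ δ) :
    ENNReal.ofReal (√Real.pi ^ m * Real.Gamma (δ + 1) / Real.Gamma ((m:ℝ) / 2 + δ + 1)) =
      cc m δ := by
  have hG : 0 < Real.Gamma ((m:ℝ) / 2 + δ + 1) := Real.Gamma_pos_of_pos (by positivity)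
  have hG1 : 0 < Real.Gamma (δ + 1) := Real.Gamma_pos_of_pos (by linarith)
  have hA : ∫⁻ y : Fin m → ℝ, ∫⁻ r in Ioi (0:ℝ), dbl δ r y =
      ENNReal.ofReal (√Real.pi ^ m * Real.Gamma (δ + 1)) := by
    simp only [inner_r hδ]
    rw [lintegral_mul_const' _ _ ENNReal.ofReal_ne_top, lint_gauss,
      ← ENNReal.ofReal_mul (by positivity)]
  have hB : ∫⁻ y : Fin m → ℝ, ∫⁻ r in Ioi (0:ℝ), dbl δ r y =
      ENNReal.ofReal (Real.Gamma ((m:ℝ) / 2 + δ + 1)) * cc m δ := by
    rw [lintegral_lintegral_swap]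
    · have h1 : ∫⁻ r in Ioi (0:ℝ), ∫⁻ y : Fin m → ℝ, dbl δ r y =
          ∫⁻ r in Ioi (0:ℝ), ENNReal.ofReal (Real.exp (-r) * r ^ (((m:ℝ) / 2 + δ + 1) - 1)) *
            cc m δ := by
        refine setLIntegral_congr_fun measurableSet_Ioi fun r hr => ?_
        rw [inner_y (show 0 < r from hr)]
        congr 4
        ring
      rw [h1]
      have hmeas : Measurable fun r : ℝ =>
          ENNReal.ofReal (Real.exp (-r) * r ^ (((m:ℝ) / 2 + δ + 1) - 1)) := by fun_prop
      rw [lintegral_mul_const _ hmeas, lint_gamma (by positivity)]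
    · have := (dbl_meas (m := m) δ).comp (measurable_swap (α := (Fin m → ℝ)) (β := ℝ))
      exact this.aemeasurable
  rw [hA] at hB
  rw [ENNReal.ofReal_div_of_pos hG, hB, mul_comm, ENNReal.mul_div_cancel_right]
  · exact (ENNReal.ofReal_pos.2 hG).ne'
  · exact ENNReal.ofReal_ne_top

end Pool.Agent.Q233.MX
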