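import Pool.Agent.Q233.MB.Body

/-!
# Bodies of tuples of matrices, invariant under orthogonal groups (helper233)

`Sp m n` is the direct sum of the spaces of `m i × n i` matrices (tuples of `n i` vectors of
`ℝ^(m i)`).
-/

set_option autoImplicit false

open MeasureTheory Set
open scoped RealInnerProductSpace Matrix ENNReal

namespace Pool.Agent.Q233.MX

open Pool.Agent.Q233.MB

variable {ι : Type*} [Fintype ι] {m n : ι → ℕ}

/-- direct sums of spaces of matrices -/
abbrev Sp (m n : ι → ℕ) : Type _ := (i : ι) → Fin (n i) → Ev (m i)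

/-- the inner product -/
noncomputable def ipA (A B : Sp m n) : ℝ := ∑ i, ip (A i) (B i)

/-- invariance under the product of the orthogonal groups -/
def InvA (K : Set (Sp m n)) : Prop :=
  ∀ g : (i : ι) → (Ev (m i) ≃ₗᵢ[ℝ] Ev (m i)), ∀ A ∈ K, (fun i j => g i (A i j)) ∈ K

/-- the polar body -/
def pol (K : Set (Sp m n)) : Set (Sp m n) := {B | ∀ A ∈ K, ipA A B ≤ 1}

/-- the dimension -/
def dm (m n : ι → ℕ) : ℕ := ∑ i, m i * n i

/-- convex invariant sets in normal position -/
structure Nbs (K : Set (Sp m n)) : Prop where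
  conv : Convex ℝ K
  inv : InvA K
  le : ∀ i, n i ≤ m i
  ex : ∃ Q ∈ K, ∀ i, Orthonormal ℝ (Q i)
  det : ∀ A ∈ K, ∏ i, (gr (A i)).det ^ m i ≤ 1

lemma Nbs.on_mem {K : Set (Sp m n)} (h : Nbs K) {Q : Sp m n} (hQ : ∀ i, Orthonormal ℝ (Q i)) :
    Q ∈ K := by
  obtain ⟨Q₀, hQ₀, ho⟩ := h.ex
  choose g hg using fun i => exists_isometry (h.le i) (ho i) (hQ i)
  have := h.inv g Q₀ hQ₀
  have e : (fun i j => g i (Q₀ i j)) = Q := by
    funext i j
    exact hg i j
  rwa [e] at this

lemma elem_prod_w {κ : Type*} [Fintype κ] {σ : κ → ℝ} {w : κ → ℕ} (hσ : ∀ i, 0 ≤ σ i)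
    (h : ∀ t : ℝ, 0 ≤ t → t ≤ 1 → ∏ i, (((1 - t) + t * σ i) ^ 2) ^ w i ≤ 1) :
    ∑ i, w i * σ i ≤ ∑ i, (w i : ℝ) := by
  set x : κ → ℝ := fun i => σ i - 1 with hx
  have hS : ∑ i, w i * x i = ∑ i, w i * σ i - ∑ i, (w i : ℝ) := by
    rw [hx, ← Finset.sum_sub_distrib]
    exact Finset.sum_congr rfl fun i _ => by ring
  set C : ℝ := ∑ i, w i * x i ^ 2 with hC
  have hC0 : 0 ≤ C := Finset.sum_nonneg fun i _ => mul_nonneg (Nat.cast_nonneg _) (sq_nonneg _)
  have key : ∀ t : ℝ, 0 < t → t ≤ 1 / 2 → ∑ i, w i * x i ≤ 2 * t * C := by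
    intro t ht ht2
    have hpos : ∀ i, 1 / 2 ≤ (1 - t) + t * σ i := fun i => by
      have := mul_nonneg ht.le (hσ i)
      linarith
    have h1 := h t ht.le (by linarith)
    have h2 : ∑ i, w i * Real.log ((1 - t) + t * σ i) ≤ 0 := by
      have h3 : Real.log (∏ i, (((1 - t) + t * σ i) ^ 2) ^ w i) ≤ 0 :=
        Real.log_nonpos (Finset.prod_nonneg fun i _ => pow_nonneg (sq_nonneg _) _) h1
      rw [Real.log_prod fun i _ => pow_ne_zero _ (pow_ne_zero _ (by linarith [hpos i]))] at h3
      simp only [Real.log_pow] at h3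
      have h3' : 2 * ∑ i, w i * Real.log ((1 - t) + t * σ i) ≤ 0 := by
        rw [Finset.mul_sum]
        refine le_trans (le_of_eq (Finset.sum_congr rfl fun i _ => ?_)) h3
        push_cast
        ring
      linarith
    have h4 : ∀ i, t * x i - 2 * t ^ 2 * x i ^ 2 ≤ Real.log ((1 - t) + t * σ i) := by
      intro i
      have hp := hpos i
      have hp0 : 0 < (1 - t) + t * σ i := by linarith
      have h5 := Real.one_sub_inv_le_log_of_pos hp0
      refine le_trans ?_ h5
      have e : (1 - t) + t * σ i = 1 + t * x i := by rw [hx]; ring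
      rw [e] at hp hp0 ⊢
      have h6 : 1 - (1 + t * x i)⁻¹ = t * x i - (t * x i) ^ 2 * (1 + t * x i)⁻¹ := by
        field_simp
        ring
      rw [h6]
      have h7 : (1 + t * x i)⁻¹ ≤ 2 := by
        rw [inv_le_comm₀ hp0 (by norm_num)]
        linarith
      have h8 := mul_le_mul_of_nonneg_left h7 (sq_nonneg (t * x i))
      nlinarith
    have h9 : t * ∑ i, w i * x i - 2 * t ^ 2 * C ≤ 0 := by
      refine le_trans ?_ h2
      calc t * ∑ i, w i * x i - 2 * t ^ 2 * C
          = ∑ i, w i * (t * x i - 2 * t ^ 2 * x i ^ 2) := by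
            rw [hC, Finset.mul_sum, Finset.mul_sum, ← Finset.sum_sub_distrib]
            exact Finset.sum_congr rfl fun i _ => by ring
        _ ≤ _ := Finset.sum_le_sum fun i _ =>
            mul_le_mul_of_nonneg_left (h4 i) (Nat.cast_nonneg _)
    have h10 : t * (∑ i, w i * x i) ≤ t * (2 * t * C) := by nlinarith
    exact le_of_mul_le_mul_left h10 ht
  have h0 : ∑ i, w i * x i ≤ 0 := by
    by_contra hcon
    push Not at hcon
    set S := ∑ i, w i * x i
    have h1 := key (min (1 / 2) (S / (4 * (C + 1)))) (by positivity) (min_le_left _ _)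
    have h2 : 2 * min (1 / 2) (S / (4 * (C + 1))) * C ≤ 2 * (S / (4 * (C + 1))) * (C + 1) := by
      gcongr
      · exact min_le_right _ _
      · linarith
    have h3 : 2 * (S / (4 * (C + 1))) * (C + 1) = S / 2 := by field_simp; norm_num
    linarith
  linarith

/-- the weighted sum of the singular values -/
theorem Nbs.sum_le {K : Set (Sp m n)} (h : Nbs K) {A : Sp m n} (hA : A ∈ K)
    {U : (i : ι) → Matrix (Fin (n i)) (Fin (n i)) ℝ} {σ : (i : ι) → Fin (n i) → ℝ}
    {v : (i : ι) → Fin (n i) → Ev (m i)} (hs : ∀ i, Svd (A i) (U i) (σ i) (v i)) :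
    ∑ i, m i * ∑ j, σ i j ≤ dm m n := by
  have key : ∑ a : (i : ι) × Fin (n i), ((m a.1 : ℕ) : ℝ) * σ a.1 a.2 ≤
      ∑ a : (i : ι) × Fin (n i), ((m a.1 : ℕ) : ℝ) := by
    apply elem_prod_w (w := fun a : (i : ι) × Fin (n i) => m a.1) (fun a => (hs a.1).nn a.2)
    intro t ht0 ht1
    have hQ : (fun i => cmb (U i) (fun _ => 1) (v i)) ∈ K :=
      h.on_mem fun i => cmb_on (hs i).orth (hs i).ov (fun _ => one_pow _)
    have h1 := h.conv hQ hA (sub_nonneg.2 ht1) ht0 (by ring)
    have e : (1 - t) • (fun i => cmb (U i) (fun _ => 1) (v i)) + t • A =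
        fun i => cmb (U i) (fun j => (1 - t) + t * σ i j) (v i) := by
      funext i j
      simp only [Pi.add_apply, Pi.smul_apply]
      rw [(hs i).eq]
      simp only [cmb, Finset.smul_sum, smul_smul, ← Finset.sum_add_distrib, ← add_smul]
      refine Finset.sum_congr rfl fun k _ => ?_
      congr 1
      ring
    rw [e] at h1
    have h2 := h.det _ h1
    refine le_trans (le_of_eq ?_) h2
    rw [Fintype.prod_sigma]
    refine Finset.prod_congr rfl fun i _ => ?_
    rw [det_gr_cmb (hs i).orth (hs i).ov, ← Finset.prod_pow]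
  rw [Fintype.sum_sigma, Fintype.sum_sigma] at key
  refine le_trans (le_of_eq ?_) (key.trans (le_of_eq ?_))
  · exact Finset.sum_congr rfl fun i _ => by rw [Finset.mul_sum]
  · simp only [Finset.sum_const, Finset.card_univ, Fintype.card_fin, nsmul_eq_mul, dm]
    push_cast
    exact Finset.sum_congr rfl fun i _ => mul_comm _ _

/-- the product of the operator norm balls is contained in `K` -/
theorem Nbs.op_mem {K : Set (Sp m n)} (h : Nbs K) {B : Sp m n} (hB : ∀ i, OpLe 1 (B i)) :
    B ∈ K := by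
  choose U σ v hs using fun i => exists_svd (h.le i) (B i)
  have hσ : ∀ i k, σ i k ≤ 1 := by
    intro i k
    have h1 := hB i (U i k)
    have h4 : ∑ j, U i k j ^ 2 = 1 := by
      have := row_row (hs i).orth k k
      rw [if_pos rfl] at this
      rw [← this]
      exact Finset.sum_congr rfl fun j _ => by ring
    rw [h4] at h1
    have e : ∑ j, U i k j • B i j = σ i k • v i k := by
      rw [(hs i).eq]
      simp only [cmb, Finset.smul_sum, smul_smul]
      rw [Finset.sum_comm]
      have : ∀ l, ∑ j, (U i k j * (σ i l * U i l j)) • v i l =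
          (σ i l * (if k = l then 1 else 0)) • v i l := by
        intro l
        rw [← Finset.sum_smul]
        congr 1
        rw [← row_row (hs i).orth k l, Finset.mul_sum]
        exact Finset.sum_congr rfl fun j _ => by ring
      simp only [this]
      rw [Finset.sum_eq_single k]
      · simp
      · intro l _ hl
        rw [if_neg (Ne.symm hl)]; simp
      · intro hh; exact absurd (Finset.mem_univ k) hh
    rw [e, norm_smul, (hs i).ov.1 k, mul_one, Real.norm_eq_abs, sq_abs] at h1
    nlinarith [(hs i).nn k]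
  set L : ((i : ι) → Fin (n i) → ℝ) →ₗ[ℝ] Sp m n :=
    { toFun := fun s i => cmb (U i) (s i) (v i)
      map_add' := by
        intro a b
        funext i j
        simp only [cmb, Pi.add_apply, ← Finset.sum_add_distrib, ← add_smul]
        exact Finset.sum_congr rfl fun k _ => by congr 1; ring
      map_smul' := by
        intro c a
        funext i j
        simp only [cmb, Pi.smul_apply, Finset.smul_sum, smul_smul, smul_eq_mul, RingHom.id_apply]
        exact Finset.sum_congr rfl fun k _ => by congr 1; ring } with hL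
  have hsub : (univ : Set ι).pi (fun i => (univ : Set (Fin (n i))).pi
      (fun _ => ({-1, 1} : Set ℝ))) ⊆ L ⁻¹' K := by
    intro s hs'
    have : ∀ i k, s i k ^ 2 = 1 := by
      intro i k
      have := hs' i (mem_univ i) k (mem_univ k)
      rcases this with h1 | h1
      · rw [h1]; norm_num
      · rw [mem_singleton_iff.1 h1]; norm_num
    exact h.on_mem fun i => cmb_on (hs i).orth (hs i).ov (this i)
  have hcv : Convex ℝ (L ⁻¹' K) := h.conv.linear_preimage L
  have h2 := convexHull_min hsub hcv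
  rw [convexHull_pi] at h2
  simp only [convexHull_pi] at h2
  have h3 : σ ∈ (univ : Set ι).pi (fun i => (univ : Set (Fin (n i))).pi
      (fun _ => convexHull ℝ ({-1, 1} : Set ℝ))) := by
    intro i _ k _
    rw [convexHull_pair, segment_eq_Icc (by norm_num)]
    exact ⟨by linarith [(hs i).nn k], hσ i k⟩
  have h4 := h2 h3
  have h5 : B = L σ := by
    funext i
    rw [(hs i).eq]
    rfl
  rw [h5]
  exact h4

/-- the dual bound -/
theorem Nbs.dual_mem {K : Set (Sp m n)} (h : Nbs K) (hd : 0 < dm m n) {B : Sp m n}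
    (hB : ∀ i, OpLe ((m i : ℝ) / dm m n) (B i)) : B ∈ pol K := by
  intro A hA
  choose U σ v hs using fun i => exists_svd (h.le i) (A i)
  have hd' : (0:ℝ) < dm m n := by exact_mod_cast hd
  have h1 : ipA A B ≤ ∑ i, (m i : ℝ) / dm m n * ∑ j, σ i j := by
    unfold ipA
    refine Finset.sum_le_sum fun i _ => ?_
    have h2 := (hs i).ip_le (by positivity : (0:ℝ) ≤ (m i : ℝ) / dm m n) (hB i)
    refine le_trans (le_of_eq ?_) h2
    unfold ip
    exact Finset.sum_congr rfl fun j _ => real_inner_comm _ _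
  have h2 := h.sum_le hA hs
  have h3 : ∑ i, (m i : ℝ) / dm m n * ∑ j, σ i j = (∑ i, m i * ∑ j, σ i j) / dm m n := by
    rw [Finset.sum_div]
    exact Finset.sum_congr rfl fun i _ => by ring
  rw [h3] at h1
  refine h1.trans ?_
  rw [div_le_one hd']
  exact h2

end Pool.Agent.Q233.MX
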