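import Pool.Agent.Q233.MX.Geo

/-!
# Normal position (helper233)
-/

set_option autoImplicit false

open MeasureTheory Set Filter
open scoped RealInnerProductSpace Matrix ENNReal Topology

namespace Pool.Agent.Q233.MX

open Pool.Agent.Q233.MB

section one

variable {m n : ℕ}

/-- right multiplication by a matrix -/
noncomputable def rm (R : Matrix (Fin n) (Fin n) ℝ) (A : Fin n → Ev m) : Fin n → Ev m :=
  fun k => ∑ j, R j k • A j

lemma gr_rm (R : Matrix (Fin n) (Fin n) ℝ) (A : Fin n → Ev m) :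
    gr (rm R A) = Rᵀ * gr A * R := by
  ext k l
  simp only [gr, rm, Matrix.of_apply, Matrix.mul_apply, Matrix.transpose_apply]
  rw [inner_sum_sum]
  simp only [Finset.sum_mul]
  rw [Finset.sum_comm]
  refine Finset.sum_congr rfl fun i _ => Finset.sum_congr rfl fun j _ => ?_
  ring

lemma rm_rm (R S : Matrix (Fin n) (Fin n) ℝ) (A : Fin n → Ev m) :
    rm S (rm R A) = rm (R * S) A := by
  funext k
  simp only [rm, Finset.smul_sum, smul_smul, Matrix.mul_apply, Finset.sum_smul]
  rw [Finset.sum_comm]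
  refine Finset.sum_congr rfl fun i _ => Finset.sum_congr rfl fun j _ => ?_
  rw [mul_comm]

lemma rm_one (A : Fin n → Ev m) : rm 1 A = A := by
  funext k
  simp [rm, Matrix.one_apply]

lemma rm_isom (R : Matrix (Fin n) (Fin n) ℝ) (g : Ev m ≃ₗᵢ[ℝ] Ev m) (A : Fin n → Ev m) :
    rm R (fun j => g (A j)) = fun k => g (rm R A k) := by
  funext k
  simp [rm, map_sum]

/-- the adjoint of right multiplication by a symmetric matrix -/
lemma ip_rm {R : Matrix (Fin n) (Fin n) ℝ} (hR : Rᵀ = R) (A B : Fin n → Ev m) :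
    ip (rm R A) B = ip A (rm R B) := by
  have hR' : ∀ j k, R j k = R k j := fun j k => by
    conv_lhs => rw [← hR]
    rfl
  simp only [ip, rm, sum_inner, inner_sum, real_inner_smul_left, real_inner_smul_right]
  rw [Finset.sum_comm]
  refine Finset.sum_congr rfl fun j _ => Finset.sum_congr rfl fun k _ => ?_
  rw [hR' j k]

lemma det_gr_cont : Continuous fun A : Fin n → Ev m => (gr A).det := by
  apply Continuous.matrix_det
  unfold gr
  exact continuous_matrix fun i j => by
    simp only [Matrix.of_apply]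
    fun_prop

/-- an orthogonal conjugate of a diagonal matrix -/
noncomputable def dg (U : Matrix (Fin n) (Fin n) ℝ) (a : Fin n → ℝ) : Matrix (Fin n) (Fin n) ℝ :=
  Uᵀ * Matrix.diagonal a * U

lemma dg_t (U : Matrix (Fin n) (Fin n) ℝ) (a : Fin n → ℝ) : (dg U a)ᵀ = dg U a := by
  simp [dg, Matrix.transpose_mul, Matrix.mul_assoc]

lemma dg_mul {U : Matrix (Fin n) (Fin n) ℝ} (hU : U * Uᵀ = 1) (a b : Fin n → ℝ) :
    dg U a * dg U b = dg U (fun i => a i * b i) := by
  unfold dg
  calc Uᵀ * Matrix.diagonal a * U * (Uᵀ * Matrix.diagonal b * U)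
      = Uᵀ * Matrix.diagonal a * (U * Uᵀ) * Matrix.diagonal b * U := by
        simp only [Matrix.mul_assoc]
    _ = _ := by
        rw [hU, Matrix.mul_one, Matrix.mul_assoc Uᵀ, Matrix.diagonal_mul_diagonal]

lemma dg_one {U : Matrix (Fin n) (Fin n) ℝ} (hU : U * Uᵀ = 1) : dg U (fun _ => 1) = 1 := by
  unfold dg
  have : Matrix.diagonal (fun _ : Fin n => (1:ℝ)) = 1 := Matrix.diagonal_one
  rw [this, Matrix.mul_one, orth' hU]

lemma dg_apply (U : Matrix (Fin n) (Fin n) ℝ) (a : Fin n → ℝ) (j k : Fin n) :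
    dg U a j k = ∑ i, a i * U i j * U i k := by
  unfold dg
  rw [Matrix.mul_apply]
  simp only [Matrix.mul_diagonal, Matrix.transpose_apply]
  exact Finset.sum_congr rfl fun i _ => by ring

lemma rm_cmb {U : Matrix (Fin n) (Fin n) ℝ} (hU : U * Uᵀ = 1) (a σ : Fin n → ℝ)
    (v : Fin n → Ev m) : rm (dg U a) (cmb U σ v) = cmb U (fun i => σ i * a i) v := by
  funext k
  simp only [rm, cmb, Finset.smul_sum, smul_smul]
  rw [Finset.sum_comm]
  refine Finset.sum_congr rfl fun i _ => ?_
  rw [← Finset.sum_smul]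
  congr 1
  simp only [dg_apply, Finset.sum_mul]
  rw [Finset.sum_comm]
  calc ∑ l, ∑ j, a l * U l j * U l k * (σ i * U i j)
      = ∑ l, a l * U l k * σ i * ∑ j, U l j * U i j := by
        refine Finset.sum_congr rfl fun l _ => ?_
        rw [Finset.mul_sum]
        exact Finset.sum_congr rfl fun j _ => by ring
    _ = _ := by
        simp only [row_row hU]
        rw [Finset.sum_eq_single i]
        · rw [if_pos rfl]; ring
        · intro l _ hl
          rw [if_neg hl, mul_zero]
        · intro hh; exact absurd (Finset.mem_univ i) hh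

end one

variable {ι : Type*} [Fintype ι] {m n : ι → ℕ}

/-- blockwise right multiplication as a linear equivalence -/
noncomputable def rmL (R S : (i : ι) → Matrix (Fin (n i)) (Fin (n i)) ℝ)
    (hRS : ∀ i, R i * S i = 1) : Sp m n ≃ₗ[ℝ] Sp m n where
  toFun A i := rm (R i) (A i)
  invFun A i := rm (S i) (A i)
  map_add' A B := by
    funext i k
    simp [rm, smul_add, Finset.sum_add_distrib]
  map_smul' c A := by
    funext i k
    simp only [rm, Pi.smul_apply, Finset.smul_sum, RingHom.id_apply]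
    exact Finset.sum_congr rfl fun j _ => smul_comm _ _ _
  left_inv A := by
    funext i
    change rm (S i) (rm (R i) (A i)) = A i
    rw [rm_rm, hRS, rm_one]
  right_inv A := by
    funext i
    change rm (R i) (rm (S i) (A i)) = A i
    rw [rm_rm, mul_eq_one_comm.1 (hRS i), rm_one]

/-- **normal position** -/
theorem normal [Nonempty ι] {K : Set (Sp m n)} (hc : IsCompact K) (hv : Convex ℝ K)
    (hi : (interior K).Nonempty) (hinv : InvA K) (hnm : ∀ i, n i ≤ m i) :
    ∃ (R S : (i : ι) → Matrix (Fin (n i)) (Fin (n i)) ℝ) (hRS : ∀ i, R i * S i = 1),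
      (∀ i, (R i)ᵀ = R i) ∧ (∀ i, (S i)ᵀ = S i) ∧
      Nbs ((rmL (m := m) R S hRS) '' K) := by
  classical
  have hneg : ∀ A ∈ K, -A ∈ K := by
    intro A hA
    have h1 := hinv (fun i => LinearIsometryEquiv.neg ℝ) A hA
    have h2 : (fun i j => (LinearIsometryEquiv.neg ℝ : Ev (m i) ≃ₗᵢ[ℝ] Ev (m i)) (A i j)) = -A := by
      funext i j; simp
    rwa [h2] at h1
  have h0 : (0 : Sp m n) ∈ interior K := by
    obtain ⟨x, hx⟩ := hi
    have hx' : -x ∈ interior K := by
      have h1 : -K = K := by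
        ext y
        rw [Set.mem_neg]
        constructor
        · intro hy; simpa using hneg _ hy
        · intro hy; exact hneg _ hy
      have h2 : interior (-K) = -interior K := by
        rw [← Set.image_neg_eq_neg, ← Set.image_neg_eq_neg]
        exact ((Homeomorph.neg (Sp m n)).image_interior K).symm
      rw [← h1, h2, Set.mem_neg, neg_neg]
      exact hx
    have h3 := hv.interior hx hx' (by norm_num : (0:ℝ) ≤ 1 / 2) (by norm_num : (0:ℝ) ≤ 1 / 2)
      (by norm_num)
    simpa using h3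
  obtain ⟨A₁, hA₁, hdet₁⟩ : ∃ A ∈ K, 0 < ∏ i, (gr (A i)).det ^ m i := by
    set Q : Sp m n := fun i j => EuclideanSpace.single (Fin.castLE (hnm i) j) 1 with hQ
    have hQo : ∀ i, Orthonormal ℝ (Q i) := fun i =>
      (EuclideanSpace.orthonormal_single (𝕜 := ℝ) (ι := Fin (m i))).comp
        (Fin.castLE (hnm i)) (Fin.castLE_injective _)
    have hcont : Continuous fun t : ℝ => t • Q := by fun_prop
    have h1 : ∀ᶠ t in 𝓝[>] (0:ℝ), t • Q ∈ interior K := by
      have h2 : (0:ℝ) • Q ∈ interior K := by rw [zero_smul]; exact h0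
      exact (hcont.continuousAt.eventually (isOpen_interior.mem_nhds h2)).filter_mono
        nhdsWithin_le_nhds
    obtain ⟨t, ht, ht0⟩ := (h1.and self_mem_nhdsWithin).exists
    refine ⟨t • Q, interior_subset ht, ?_⟩
    apply Finset.prod_pos
    intro i _
    have e1 : gr ((t • Q) i) = (t ^ 2) • (1 : Matrix (Fin (n i)) (Fin (n i)) ℝ) := by
      ext j k
      simp only [gr, Matrix.of_apply, Pi.smul_apply, real_inner_smul_left,
        real_inner_smul_right, Matrix.smul_apply, smul_eq_mul, Matrix.one_apply]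
      rw [orthonormal_iff_ite.1 (hQo i) j k]
      split_ifs <;> ring
    rw [e1, Matrix.det_smul, Matrix.det_one, mul_one]
    have : 0 < t := ht0
    positivity
  have hcont : Continuous fun A : Sp m n => ∏ i, (gr (A i)).det ^ m i :=
    continuous_finset_prod _ fun i _ => (det_gr_cont.comp (continuous_apply i)).pow _
  obtain ⟨A₀, hA₀, hmax⟩ := hc.exists_isMaxOn ⟨A₁, hA₁⟩ hcont.continuousOn
  have hdet₀ : 0 < ∏ i, (gr (A₀ i)).det ^ m i := lt_of_lt_of_le hdet₁ (hmax hA₁)
  choose U σ v hs using fun i => exists_svd (hnm i) (A₀ i)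
  have hm0 : ∀ i, n i ≠ 0 → m i ≠ 0 := fun i h h' => by
    have := hnm i
    omega
  have hσ : ∀ i k, σ i k ≠ 0 := by
    intro i k h0
    have hmi : m i ≠ 0 := hm0 i (fun h => by have := k.2; omega)
    have h1 : (gr (A₀ i)).det = 0 := by
      rw [(hs i).det]
      exact Finset.prod_eq_zero (Finset.mem_univ k) (by rw [h0]; norm_num)
    rw [Finset.prod_eq_zero (Finset.mem_univ i) (by rw [h1]; exact zero_pow hmi)] at hdet₀
    exact lt_irrefl _ hdet₀
  set R : (i : ι) → Matrix (Fin (n i)) (Fin (n i)) ℝ := fun i => dg (U i) (fun k => (σ i k)⁻¹)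
    with hR
  set S : (i : ι) → Matrix (Fin (n i)) (Fin (n i)) ℝ := fun i => dg (U i) (σ i) with hS
  have hRS : ∀ i, R i * S i = 1 := by
    intro i
    rw [hR, hS]
    simp only
    rw [dg_mul (hs i).orth, ← dg_one (hs i).orth]
    congr 1
    funext k
    exact inv_mul_cancel₀ (hσ i k)
  have hRA : ∀ i, rm (R i) (A₀ i) = cmb (U i) (fun _ => 1) (v i) := by
    intro i
    rw [(hs i).eq]
    rw [hR]
    simp only
    rw [rm_cmb (hs i).orth]
    congr 1
    funext k
    exact mul_inv_cancel₀ (hσ i k)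
  have hmem : ∀ A, A ∈ (rmL (m := m) R S hRS) '' K ↔ (fun i => rm (S i) (A i)) ∈ K := by
    intro A
    constructor
    · rintro ⟨B, hB, rfl⟩
      have : (fun i => rm (S i) ((rmL (m := m) R S hRS) B i)) = B :=
        (rmL (m := m) R S hRS).symm_apply_apply B
      rw [this]
      exact hB
    · intro h
      exact ⟨_, h, (rmL (m := m) R S hRS).apply_symm_apply A⟩
  refine ⟨R, S, hRS, fun i => dg_t _ _, fun i => dg_t _ _, ⟨?_, ?_, hnm, ?_, ?_⟩⟩
  · exact hv.linear_image (rmL (m := m) R S hRS).toLinearMap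
  · intro g A hA
    rw [hmem] at hA ⊢
    have := hinv g _ hA
    have e : (fun i => rm (S i) (fun j => g i (A i j))) = fun i j => g i (rm (S i) (A i) j) := by
      funext i
      exact rm_isom _ _ _
    rw [e]
    exact this
  · refine ⟨fun i => cmb (U i) (fun _ => 1) (v i), ?_, fun i =>
      cmb_on (hs i).orth (hs i).ov (fun _ => one_pow _)⟩
    refine ⟨A₀, hA₀, ?_⟩
    funext i
    exact hRA i
  · intro A hA
    rw [hmem] at hA
    have h1 : ∏ i, (gr (rm (S i) (A i))).det ^ m i ≤ ∏ i, (gr (A₀ i)).det ^ m i := hmax hA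
    have h2 : ∀ i, A i = rm (R i) (rm (S i) (A i)) := fun i => by
      rw [rm_rm, mul_eq_one_comm.1 (hRS i), rm_one]
    have h3 : ∀ i, (gr (rm (R i) (A₀ i))).det = 1 := by
      intro i
      rw [hRA i, det_gr_cmb (hs i).orth (hs i).ov]
      simp
    have hf : ∀ (B : Sp m n), ∏ i, (gr (rm (R i) (B i))).det ^ m i =
        (∏ i, ((R i).det ^ 2) ^ m i) * ∏ i, (gr (B i)).det ^ m i := by
      intro B
      rw [← Finset.prod_mul_distrib]
      refine Finset.prod_congr rfl fun i _ => ?_
      rw [gr_rm, Matrix.det_mul, Matrix.det_mul, Matrix.det_transpose, ← mul_pow]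
      congr 1
      ring
    have h4 : ∏ i, (gr (A i)).det ^ m i = (∏ i, ((R i).det ^ 2) ^ m i) *
        ∏ i, (gr (rm (S i) (A i))).det ^ m i := by
      rw [← hf]
      exact Finset.prod_congr rfl fun i _ => by rw [← h2 i]
    have h5 : (∏ i, ((R i).det ^ 2) ^ m i) * ∏ i, (gr (A₀ i)).det ^ m i = 1 := by
      rw [← hf]
      exact Finset.prod_eq_one fun i _ => by rw [h3 i, one_pow]
    rw [h4, ← h5]
    exact mul_le_mul_of_nonneg_left h1 (Finset.prod_nonneg fun i _ => by positivity)

/-- the polar body of the normal position -/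
lemma pol_image {K : Set (Sp m n)} {R S : (i : ι) → Matrix (Fin (n i)) (Fin (n i)) ℝ}
    {hRS : ∀ i, R i * S i = 1} (hR : ∀ i, (R i)ᵀ = R i) :
    pol ((rmL (m := m) R S hRS) '' K) = (rmL (m := m) R S hRS).symm '' pol K := by
  have hadj : ∀ A B : Sp m n, ipA (rmL (m := m) R S hRS A) B = ipA A (rmL (m := m) R S hRS B) := by
    intro A B
    exact Finset.sum_congr rfl fun i _ => ip_rm (hR i) _ _
  ext B
  constructor
  · intro hB
    refine ⟨rmL (m := m) R S hRS B, ?_, LinearEquiv.symm_apply_apply _ _⟩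
    intro A hA
    rw [← hadj]
    exact hB _ ⟨A, hA, rfl⟩
  · rintro ⟨C, hC, rfl⟩
    rintro _ ⟨A, hA, rfl⟩
    rw [hadj, LinearEquiv.apply_symm_apply]
    exact hC A hA

end Pool.Agent.Q233.MX
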