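import Pool.Agent.Q233.MB.Svd

/-!
# Statements for lemma jobs (project of helper233: Mahler's conjecture for bodies of matrices)

`Ev m = EuclideanSpace ℝ (Fin m)`; a tuple `A : Fin n → Ev m` is the `m × n` matrix with the
columns `A j`; `OpLe 1 A` (file `Pool.Agent.Q233.MB.Svd`) says that its operator norm is at
most one.
-/

set_option autoImplicit false

open MeasureTheory
open scoped ENNReal

namespace Pool.Agent.Q233.MX

open Pool.Agent.Q233.MB

/-- the volume of the operator norm ball of the real `m × n` matrices -/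
noncomputable def vB (m n : ℕ) : ℝ :=
  ∏ k ∈ Finset.range n, (√Real.pi ^ m * Real.Gamma ((k : ℝ) / 2 + 1) /
    Real.Gamma (((m : ℝ) + k) / 2 + 1))

/-- JOB VOL: lower bound of the volume of the operator norm ball (equality holds) -/
def S_vol : Prop := ∀ m n : ℕ, 1 ≤ m →
  ENNReal.ofReal (vB m n) ≤ volume {A : Fin n → Ev m | OpLe 1 A}

/-- JOB NUM: the numerical inequality -/
def S_num : Prop := ∀ m n : ℕ, 1 ≤ n → 4 * n + 3 ≤ m →
  1 ≤ vB m n ^ 2 * ((m : ℝ) / (4 * Real.exp 1)) ^ (m * n)

end Pool.Agent.Q233.MX
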