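import Mathlib

/-!
# Statements for lemma jobs (project of helper233)

The integration formula in singular values for real `(n + a) × n` matrices, and two numerical
statements.
-/

set_option autoImplicit false

open MeasureTheory Matrix
open scoped ENNReal Matrix

namespace Pool.Agent.Q233.MX.W

variable {n a : ℕ}

/-- real matrices with `n + a` rows and `n` columns, as functions (sup norm, Lebesgue measure) -/
abbrev Mt (n a : ℕ) : Type := Fin n ⊕ Fin a → Fin n → ℝ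

/-- the matrix with the diagonal `s` -/
def D (a : ℕ) (s : Fin n → ℝ) : Matrix (Fin n ⊕ Fin a) (Fin n) ℝ :=
  Matrix.of (Sum.elim (fun i j => if i = j then s j else 0) (fun _ _ => 0))

/-- the open chamber -/
def Ch (n : ℕ) : Set (Fin n → ℝ) := {s | (∀ i, 0 < s i) ∧ StrictAnti s}

/-- the weight `∏_{i<j} (s_i² - s_j²) ∏ s_i^a` -/
noncomputable def w (a : ℕ) (s : Fin n → ℝ) : ℝ :=
  (∏ i, ∏ j ∈ Finset.Ioi i, (s i ^ 2 - s j ^ 2)) * ∏ i, s i ^ a

/-- `X = U D(s) Vᵀ` with orthogonal `U`, `V` -/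
def IsSv (X : Mt n a) (s : Fin n → ℝ) : Prop :=
  ∃ (U : Matrix (Fin n ⊕ Fin a) (Fin n ⊕ Fin a) ℝ) (V : Matrix (Fin n) (Fin n) ℝ),
    U * Uᵀ = 1 ∧ V * Vᵀ = 1 ∧ Matrix.of X = U * D a s * Vᵀ

/-- invariance of a function of matrices under the orthogonal groups -/
def Bi (Φ : Mt n a → ℝ≥0∞) : Prop :=
  ∀ (X Y : Mt n a) (U : Matrix (Fin n ⊕ Fin a) (Fin n ⊕ Fin a) ℝ) (V : Matrix (Fin n) (Fin n) ℝ),
    U * Uᵀ = 1 → V * Vᵀ = 1 → Matrix.of Y = U * Matrix.of X * V → Φ Y = Φ X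

/-- **the integration formula** -/
def S_weyl : Prop := ∀ n a : ℕ, ∃ c : ℝ≥0∞, c ≠ 0 ∧ c ≠ ⊤ ∧ ∀ Φ : Mt n a → ℝ≥0∞,
  Measurable Φ → Bi Φ →
    ∫⁻ X, Φ X = c * ∫⁻ s in Ch n, Φ (Matrix.of.symm (D a s)) * ENNReal.ofReal (w a s)

/-- antisymmetric matrix from the entries above the diagonal and the lower block -/
def om (H : Mt n a) : Matrix (Fin n ⊕ Fin a) (Fin n ⊕ Fin a) ℝ := Matrix.of fun r c =>
  match r, c with
  | .inl i, .inl j => if i < j then H (.inl i) j else if j < i then -H (.inl j) i else 0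
  | .inr k, .inl j => H (.inr k) j
  | .inl i, .inr k => -H (.inr k) i
  | .inr _, .inr _ => 0

/-- antisymmetric matrix from the entries below the diagonal -/
def et (H : Mt n a) : Matrix (Fin n) (Fin n) ℝ := Matrix.of fun i j =>
  if j < i then H (.inl i) j else if i < j then -H (.inl j) i else 0

/-- the diagonal -/
def dgl (H : Mt n a) : Fin n → ℝ := fun i => H (.inl i) i

/-- the part off the diagonal -/
def off (H : Mt n a) : Mt n a := fun r c => if r = .inl c then 0 else H r c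

/-- Cayley transform -/
noncomputable def cay {κ : Type} [Fintype κ] [DecidableEq κ] (X : Matrix κ κ ℝ) : Matrix κ κ ℝ :=
  (1 - X) * (1 + X)⁻¹

/-- the chart -/
noncomputable def Psi (H : Mt n a) : Mt n a :=
  Matrix.of.symm (cay (om H) * D a (dgl H) * (cay (et H))ᵀ)

/-- JOB CAY: the Cayley transform of an antisymmetric matrix is orthogonal, injective -/
def S_cay : Prop := ∀ (κ : Type) [Fintype κ] [DecidableEq κ] (X : Matrix κ κ ℝ), Xᵀ = -X →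
  IsUnit (1 + X) ∧ cay X * (cay X)ᵀ = 1 ∧
    ∀ Y : Matrix κ κ ℝ, Yᵀ = -Y → cay X = cay Y → X = Y

/-- JOB JAC: the Jacobian of the chart -/
def S_jac : Prop := ∀ n a : ℕ, ∃ (Ps : Mt n a → (Mt n a →L[ℝ] Mt n a)) (j : Mt n a → ℝ),
  (∀ H, HasFDerivAt Psi (Ps H) H) ∧ Continuous j ∧ 0 < j 0 ∧ (∀ H, 0 ≤ j H) ∧
  (∀ H, j H = j (off H)) ∧ ∀ H, |(Ps H).det| = j H * |w a (dgl H)|

/-- JOB INJ: the chart is injective near the diagonal matrices -/
def S_inj : Prop := ∀ n a : ℕ, ∃ B : Set (Mt n a), IsOpen B ∧ (0 : Mt n a) ∈ B ∧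
  Set.InjOn Psi {H : Mt n a | off H ∈ B ∧ dgl H ∈ Ch n}

/-- JOB STAB: stabilisers of the diagonal matrices -/
def S_stab : Prop := ∀ (n a : ℕ) (s s' : Fin n → ℝ)
  (U : Matrix (Fin n ⊕ Fin a) (Fin n ⊕ Fin a) ℝ) (V : Matrix (Fin n) (Fin n) ℝ),
  s ∈ Ch n → s' ∈ Ch n → U * Uᵀ = 1 → V * Vᵀ = 1 → U * D a s * Vᵀ = D a s' →
    s = s' ∧ (∀ t : Fin n → ℝ, U * D a t * Vᵀ = D a t) ∧
    ∃ e : Fin n → ℝ, (∀ i, e i = 1 ∨ e i = -1) ∧ V = Matrix.diagonal e ∧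
      ∀ i j, U (.inl i) (.inl j) = if i = j then e i else 0

/-- JOB NULL: almost every matrix has distinct positive singular values -/
def S_null : Prop := ∀ n a : ℕ, volume {X : Mt n a | ¬ ∃ s ∈ Ch n, IsSv X s} = 0

/-- JOB HANKEL: the Gaussian integral of the square of the weight -/
def S_hankel : Prop := ∀ (n a : ℕ) (κ : ℝ), 0 < κ →
  ∫⁻ s in Ch n, ENNReal.ofReal (w a s ^ 2 * Real.exp (-(κ * ∑ i, s i ^ 2))) ≤
    ENNReal.ofReal ((1 / 2) ^ n * κ ^ (-((n : ℝ) * (n + a - 1 / 2))) *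
      ∏ k ∈ Finset.range n, ((k.factorial : ℝ) * Real.Gamma ((k : ℝ) + a + 1 / 2)))

/-- bound of the square of `∫ w exp(-|s|²/2)` -/
noncomputable def I1 (n a : ℕ) : ℝ :=
  (1 / 2) ^ n * (1 - 1 / ((n : ℝ) + a)) ^ (-((n : ℝ) * (n + a - 1 / 2))) *
      ∏ k ∈ Finset.range n, ((k.factorial : ℝ) * Real.Gamma ((k : ℝ) + a + 1 / 2))

/-- the second factor -/
noncomputable def I2 (n a : ℕ) : ℝ :=
  (√(Real.pi * (n + a)) / 2) ^ n / n.factorial

/-- the lower bound of the product of the weights at the two dual points -/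
noncomputable def QQ (n a : ℕ) (f : ℕ → ℝ) : ℝ :=
  (∏ i ∈ Finset.range n, ∏ j ∈ Finset.Ioo i n, ((f i + f j) * (f i - f j) ^ 2 / f 0)) *
    ∏ i ∈ Finset.range n, (f i * √(f i / f 0)) ^ (a + 1)

/-- JOB NUMB: the numerical inequality -/
def S_numB : Prop := ∀ n a : ℕ, 1 ≤ n → 1000 ≤ n + a → ∃ f : ℕ → ℝ,
  (∀ i, i < n → 0 < f i) ∧ (∀ i j, i < j → j < n → f j < f i) ∧
  (∑ i ∈ Finset.range n, f i = 1) ∧
  (21 / 20 : ℝ) ^ (n * (n + a)) ≤
    (2 * Real.pi) ^ (n * (n + a)) / (I1 n a * I2 n a) * QQ n a f * Real.exp (-((n : ℝ) + 1)) /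
      (((n : ℝ) + a) * n) ^ (2 * n) *
      (((n : ℝ) * (n + a)) / (4 * Real.exp 1)) ^ (n * (n + a))

end Pool.Agent.Q233.MX.W
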