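import Pool.Agent.Q233.MX.Nrm
import Pool.Agent.Q233.MX.Stm

/-!
# Volumes (helper233)
-/

set_option autoImplicit false

open MeasureTheory Set Filter
open scoped RealInnerProductSpace Matrix ENNReal Topology Pointwise

namespace Pool.Agent.Q233.MX

open Pool.Agent.Q233.MB

lemma opLe_smul {m n : ℕ} {t : ℝ} {A : Fin n → Ev m} (hA : OpLe 1 A) : OpLe t (t • A) := by
  intro x
  have h1 := hA x
  have e : ∑ j, x j • (t • A) j = t • ∑ j, x j • A j := by
    rw [Finset.smul_sum]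
    exact Finset.sum_congr rfl fun j _ => by rw [Pi.smul_apply, smul_comm]
  rw [e, norm_smul, mul_pow, Real.norm_eq_abs, sq_abs]
  rw [one_pow, one_mul] at h1
  exact mul_le_mul_of_nonneg_left h1 (sq_nonneg t)

lemma vol_opLe_ge {m n : ℕ} {t : ℝ} (ht : 0 ≤ t) :
    ENNReal.ofReal (t ^ (m * n)) * volume {A : Fin n → Ev m | OpLe 1 A} ≤
      volume {A : Fin n → Ev m | OpLe t A} := by
  have h1 : t • {A : Fin n → Ev m | OpLe 1 A} ⊆ {A : Fin n → Ev m | OpLe t A} := by
    rintro _ ⟨A, hA, rfl⟩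
    exact opLe_smul hA
  refine le_trans (le_of_eq ?_) (measure_mono h1)
  rw [Measure.addHaar_smul]
  congr 2
  have : Module.finrank ℝ (Fin n → Ev m) = m * n := by
    rw [Module.finrank_pi_fintype]
    simp [mul_comm]
  rw [this, abs_of_nonneg (pow_nonneg ht _)]

variable {ι : Type*} [Fintype ι] {m n : ι → ℕ}

lemma vol_box (t : ι → ℝ) : volume {B : Sp m n | ∀ i, OpLe (t i) (B i)} =
    ∏ i, volume {A : Fin (n i) → Ev (m i) | OpLe (t i) A} := by
  have e : {B : Sp m n | ∀ i, OpLe (t i) (B i)} =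
      (univ : Set ι).pi (fun i => {A : Fin (n i) → Ev (m i) | OpLe (t i) A}) := by
    ext B
    simp
  rw [e, volume_pi_pi]

instance hmSp : (volume : Measure (Sp m n)).IsAddHaarMeasure := by
  have : ∀ i, (volume : Measure (Fin (n i) → Ev (m i))).IsAddHaarMeasure := fun i => inferInstance
  exact Measure.pi.isAddHaarMeasure (fun i => (volume : Measure (Fin (n i) → Ev (m i))))

lemma dm_pos [Nonempty ι] (hn : ∀ i, 1 ≤ n i) (hnm : ∀ i, n i ≤ m i) : 0 < dm m n := by
  obtain ⟨i₀⟩ := ‹Nonempty ι›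
  refine lt_of_lt_of_le ?_ (Finset.single_le_sum (f := fun i => m i * n i)
    (fun i _ => Nat.zero_le _) (Finset.mem_univ i₀))
  exact Nat.mul_pos (lt_of_lt_of_le (hn i₀) (hnm i₀)) (hn i₀)

/-- **the general lower bound of the volume product** -/
theorem general [Nonempty ι] {K : Set (Sp m n)} (hc : IsCompact K) (hv : Convex ℝ K)
    (hi : (interior K).Nonempty) (hinv : InvA K) (hnm : ∀ i, n i ≤ m i)
    (hd : 0 < dm m n) :
    (∏ i, ENNReal.ofReal (((m i : ℝ) / dm m n) ^ (m i * n i)) *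
      volume {A : Fin (n i) → Ev (m i) | OpLe 1 A} ^ 2) ≤ volume K * volume (pol K) := by
  obtain ⟨R, S, hRS, hR, hS, h⟩ := normal hc hv hi hinv hnm
  set ρ := rmL (m := m) R S hRS with hρ
  have h1 : ∏ i, volume {A : Fin (n i) → Ev (m i) | OpLe 1 A} ≤ volume (ρ '' K) := by
    rw [← vol_box (fun _ => 1)]
    exact measure_mono fun B hB => h.op_mem hB
  have h2 : ∏ i, (ENNReal.ofReal (((m i : ℝ) / dm m n) ^ (m i * n i)) *
      volume {A : Fin (n i) → Ev (m i) | OpLe 1 A}) ≤ volume (pol (ρ '' K)) := by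
    refine le_trans (Finset.prod_le_prod' fun i _ =>
      vol_opLe_ge (t := (m i : ℝ) / dm m n) (by positivity)) ?_
    rw [← vol_box (fun i => (m i : ℝ) / dm m n)]
    exact measure_mono fun B hB => h.dual_mem hd hB
  have h3 : volume (ρ '' K) * volume (pol (ρ '' K)) = volume K * volume (pol K) := by
    rw [pol_image hR, ← hρ]
    have e1 : volume (ρ '' K) = ENNReal.ofReal |LinearMap.det (ρ : Sp m n →ₗ[ℝ] Sp m n)| *
        volume K := Measure.addHaar_image_linearMap _ (ρ : Sp m n →ₗ[ℝ] Sp m n) K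
    have e2 : volume (ρ.symm '' pol K) =
        ENNReal.ofReal |LinearMap.det (ρ.symm : Sp m n →ₗ[ℝ] Sp m n)| * volume (pol K) :=
      Measure.addHaar_image_linearMap _ (ρ.symm : Sp m n →ₗ[ℝ] Sp m n) (pol K)
    rw [e1, e2]
    have e3 : |LinearMap.det (ρ : Sp m n →ₗ[ℝ] Sp m n)| *
        |LinearMap.det (ρ.symm : Sp m n →ₗ[ℝ] Sp m n)| = 1 := by
      rw [← abs_mul]
      have := LinearEquiv.det_mul_det_symm ρ
      rw [this, abs_one]
    calc ENNReal.ofReal |LinearMap.det (ρ : Sp m n →ₗ[ℝ] Sp m n)| * volume K *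
          (ENNReal.ofReal |LinearMap.det (ρ.symm : Sp m n →ₗ[ℝ] Sp m n)| * volume (pol K))
        = ENNReal.ofReal |LinearMap.det (ρ : Sp m n →ₗ[ℝ] Sp m n)| *
          ENNReal.ofReal |LinearMap.det (ρ.symm : Sp m n →ₗ[ℝ] Sp m n)| *
          (volume K * volume (pol K)) := by ring
      _ = _ := by
          rw [← ENNReal.ofReal_mul (abs_nonneg _), e3, ENNReal.ofReal_one, one_mul]
  rw [← h3]
  refine le_trans (le_of_eq ?_) (mul_le_mul' h1 h2)
  rw [← Finset.prod_mul_distrib]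
  exact Finset.prod_congr rfl fun i _ => by ring

/-- with the explicit volumes -/
theorem general_vB [Nonempty ι] (hvol : S_vol) {K : Set (Sp m n)} (hc : IsCompact K)
    (hv : Convex ℝ K) (hi : (interior K).Nonempty) (hinv : InvA K) (hn : ∀ i, 1 ≤ n i)
    (hnm : ∀ i, n i ≤ m i) :
    ENNReal.ofReal (∏ i, ((m i : ℝ) / dm m n) ^ (m i * n i) * vB (m i) (n i) ^ 2) ≤
      volume K * volume (pol K) := by
  have hvB : ∀ i, 0 ≤ vB (m i) (n i) := fun i => by
    unfold vB
    refine Finset.prod_nonneg fun k _ => ?_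
    have h1 : 0 < Real.Gamma ((k:ℝ) / 2 + 1) := Real.Gamma_pos_of_pos (by positivity)
    have h2 : 0 < Real.Gamma (((m i : ℝ) + k) / 2 + 1) := Real.Gamma_pos_of_pos (by positivity)
    positivity
  have hd : 0 < dm m n := dm_pos hn hnm
  refine le_trans ?_ (general hc hv hi hinv hnm hd)
  rw [ENNReal.ofReal_prod_of_nonneg fun i _ => by positivity]
  refine Finset.prod_le_prod' fun i _ => ?_
  rw [ENNReal.ofReal_mul (by positivity), ENNReal.ofReal_pow (hvB i)]
  gcongr
  exact hvol (m i) (n i) ((hn i).trans (hnm i))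

/-- the arithmetic of the final step -/
lemma final_arith {g : ι → ℝ} (hn : ∀ i, 1 ≤ n i) (hnm : ∀ i, n i ≤ m i) [Nonempty ι]
    (hg : ∀ i, 1 ≤ g i ^ 2 * ((m i : ℝ) / (4 * Real.exp 1)) ^ (m i * n i)) :
    (4:ℝ) ^ dm m n / (dm m n).factorial ≤
      ∏ i, ((m i : ℝ) / dm m n) ^ (m i * n i) * g i ^ 2 := by
  have hd : 0 < dm m n := dm_pos hn hnm
  have hd' : (0:ℝ) < dm m n := by exact_mod_cast hd
  have hm : ∀ i, (0:ℝ) < m i := fun i => by
    exact_mod_cast lt_of_lt_of_le (hn i) (hnm i)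
  have h1 : ∏ i, (4 * Real.exp 1 / (dm m n : ℝ)) ^ (m i * n i) ≤
      ∏ i, ((m i : ℝ) / dm m n) ^ (m i * n i) * g i ^ 2 := by
    refine Finset.prod_le_prod (fun i _ => by positivity) fun i _ => ?_
    have e1 : (4 * Real.exp 1 / (dm m n : ℝ)) ^ (m i * n i) =
        ((m i : ℝ) / dm m n) ^ (m i * n i) / ((m i : ℝ) / (4 * Real.exp 1)) ^ (m i * n i) := by
      rw [← div_pow]
      congr 1
      have := hm i
      field_simp
    rw [e1, div_le_iff₀ (by have := hm i; positivity)]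
    have h2 := mul_le_mul_of_nonneg_left (hg i)
      (by positivity : (0:ℝ) ≤ ((m i : ℝ) / dm m n) ^ (m i * n i))
    linarith
  refine le_trans ?_ h1
  rw [Finset.prod_pow_eq_pow_sum]
  change _ ≤ (4 * Real.exp 1 / (dm m n : ℝ)) ^ dm m n
  rw [div_pow, mul_pow, div_le_div_iff₀ (by positivity) (by positivity)]
  have h3 : ((dm m n : ℝ)) ^ dm m n ≤ (dm m n).factorial * Real.exp 1 ^ dm m n := by
    have h4 := Real.pow_div_factorial_le_exp (dm m n : ℝ) hd'.le (dm m n)
    rw [div_le_iff₀ (by positivity)] at h4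
    have h5 : Real.exp (dm m n : ℝ) = Real.exp 1 ^ dm m n := by
      rw [← Real.exp_nat_mul, mul_one]
    rw [h5] at h4
    linarith
  have h6 := mul_le_mul_of_nonneg_left h3 (by positivity : (0:ℝ) ≤ 4 ^ dm m n)
  linarith

/-- **Mahler's inequality** -/
theorem mahler [Nonempty ι] (hvol : S_vol) (hnum : S_num) {K : Set (Sp m n)} (hc : IsCompact K)
    (hv : Convex ℝ K) (hi : (interior K).Nonempty) (hinv : InvA K) (hn : ∀ i, 1 ≤ n i)
    (hnm : ∀ i, 4 * n i + 3 ≤ m i) :
    ENNReal.ofReal (4 ^ dm m n / (dm m n).factorial) ≤ volume K * volume (pol K) := by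
  have hnm' : ∀ i, n i ≤ m i := fun i => by have := hnm i; omega
  refine le_trans (ENNReal.ofReal_le_ofReal ?_) (general_vB hvol hc hv hi hinv hn hnm')
  exact final_arith hn hnm' fun i => hnum (m i) (n i) (hn i) (hnm i)

end Pool.Agent.Q233.MX
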