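import Pool.Agent.Q233.MX.CC
import Pool.Agent.Q233.MX.Stm

/-!
# The volume of the operator norm ball (helper233)
-/

set_option autoImplicit false

open MeasureTheory Set Matrix
open scoped ENNReal RealInnerProductSpace

namespace Pool.Agent.Q233.MX

open Pool.Agent.Q233.MB

variable {m n : ℕ}

/-- `1 - ∑ A_j A_jᵀ` -/
def MM (A : Fin n → Fin m → ℝ) : Matrix (Fin m) (Fin m) ℝ := 1 - ∑ j, vecMulVec (A j) (A j)

lemma MM_cons (x : Fin m → ℝ) (A : Fin n → Fin m → ℝ) :
    MM (Fin.cons x A : Fin (n + 1) → Fin m → ℝ) = MM A - vecMulVec x x := by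
  unfold MM
  rw [Fin.sum_univ_succ]
  simp only [Fin.cons_zero, Fin.cons_succ]
  abel

lemma MM_cont : Continuous (MM (m := m) (n := n)) := by
  unfold MM
  refine continuous_const.sub (continuous_finsetSum _ fun j _ => ?_)
  refine continuous_matrix fun a b => ?_
  simp only [vecMulVec_apply]
  fun_prop

/-- positive definite real matrices, as a set of functions -/
lemma posDef_meas : MeasurableSet {A : Fin n → Fin m → ℝ | (MM A).PosDef} := by
  have hsym : ∀ A : Fin n → Fin m → ℝ, (MM A).IsHermitian := by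
    intro A
    unfold MM
    refine IsHermitian.sub isHermitian_one ?_
    ext a b
    simp [conjTranspose_apply, Matrix.sum_apply, vecMulVec_apply, mul_comm]
  have hopen : IsOpen {A : Fin n → Fin m → ℝ | (MM A).PosDef} := by
    -- the quadratic form has a positive minimum on the unit sphere
    rcases Nat.eq_zero_or_pos m with rfl | hm
    · have : {A : Fin n → Fin 0 → ℝ | (MM A).PosDef} = univ := by
        ext A
        simp only [mem_ofPred_eq, mem_univ, iff_true]
        refine posDef_iff_dotProduct_mulVec.2 ⟨hsym A, fun x hx => ?_⟩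
        exact absurd (Subsingleton.elim x 0) hx
      rw [this]
      exact isOpen_univ
    rw [isOpen_iff_mem_nhds]
    intro A hA
    set S : Set (Fin m → ℝ) := {x | sq x = 1} with hS
    have hSc : IsCompact S := by
      refine Metric.isCompact_of_isClosed_isBounded (isClosed_eq sq_cont continuous_const) ?_
      refine Bornology.IsBounded.subset (Metric.isBounded_closedBall (x := 0) (r := 1)) ?_
      intro x hx
      rw [mem_closedBall_zero_iff, pi_norm_le_iff_of_nonneg zero_le_one]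
      intro i
      rw [Real.norm_eq_abs, abs_le_one_iff_mul_self_le_one]
      have h1 : x i ^ 2 ≤ sq x := Finset.single_le_sum (f := fun i => x i ^ 2)
        (fun i _ => sq_nonneg _) (Finset.mem_univ i)
      have h2 : sq x = 1 := hx
      nlinarith
    have hcont : Continuous fun p : (Fin n → Fin m → ℝ) × (Fin m → ℝ) =>
        star p.2 ⬝ᵥ (MM p.1 *ᵥ p.2) := by
      have h1 : Continuous fun p : (Fin n → Fin m → ℝ) × (Fin m → ℝ) => MM p.1 :=
        MM_cont.comp continuous_fst
      simp only [star_trivial]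
      exact continuous_snd.dotProduct (h1.matrix_mulVec continuous_snd)
    have hpos : ∀ x ∈ S, 0 < star x ⬝ᵥ (MM A *ᵥ x) := by
      intro x hx
      refine (posDef_iff_dotProduct_mulVec.1 hA).2 ?_
      rintro rfl
      have h2 : sq (0 : Fin m → ℝ) = 1 := hx
      simp [sq] at h2
    have h3 : ∀ᶠ A' in nhds A, ∀ x ∈ S, 0 < star x ⬝ᵥ (MM A' *ᵥ x) := by
      refine hSc.eventually_forall_of_forall_eventually fun x hx => ?_
      exact (hcont.continuousAt (x := (A, x))).eventually (lt_mem_nhds (hpos x hx))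
    filter_upwards [h3] with A' hA'
    refine posDef_iff_dotProduct_mulVec.2 ⟨hsym A', fun x hx => ?_⟩
    have hsx : 0 < sq x := by
      rcases (sq_nonneg' x).lt_or_eq with h | h
      · exact h
      · exfalso
        apply hx
        funext i
        have h4 := (Finset.sum_eq_zero_iff_of_nonneg (fun i _ => sq_nonneg (x i))).1 h.symm i
          (Finset.mem_univ i)
        simpa using h4
    have hr : 0 < √(sq x) := Real.sqrt_pos.2 hsx
    have h5 := hA' ((√(sq x))⁻¹ • x) (by
      change sq _ = 1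
      rw [sq_smul, inv_pow, Real.sq_sqrt hsx.le, inv_mul_cancel₀ hsx.ne'])
    simp only [star_trivial, mulVec_smul, smul_dotProduct, dotProduct_smul, smul_eq_mul] at h5 ⊢
    by_contra hcon
    push Not at hcon
    have h6 : (√(sq x))⁻¹ * ((√(sq x))⁻¹ * (x ⬝ᵥ MM A' *ᵥ x)) ≤ 0 := by
      rw [← mul_assoc]
      exact mul_nonpos_of_nonneg_of_nonpos (by positivity) hcon
    linarith
  exact hopen.measurableSet

/-- the integral of a power of the determinant -/
noncomputable def II (m n : ℕ) (δ : ℝ) : ℝ≥0∞ :=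
  ∫⁻ A : Fin n → Fin m → ℝ in {A | (MM A).PosDef}, ENNReal.ofReal ((MM A).det ^ δ)

/-- the ball in the new coordinates -/
lemma step_pos {M : Matrix (Fin m) (Fin m) ℝ} (hM : M.PosDef) {B : Matrix (Fin m) (Fin m) ℝ}
    (hB : M = Bᵀ * B) {b : Fin m → ℝ} (hb : sq b < 1) :
    (M - vecMulVec (Bᵀ *ᵥ b) (Bᵀ *ᵥ b)).PosDef ∧
      (M - vecMulVec (Bᵀ *ᵥ b) (Bᵀ *ᵥ b)).det = M.det * (1 - sq b) := by
  have hMd : 0 < M.det := hM.det_pos
  have hBd : B.det ≠ 0 := by
    intro h
    rw [hB, det_mul, h, mul_zero] at hMd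
    exact lt_irrefl _ hMd
  have e1 : vecMulVec (Bᵀ *ᵥ b) (Bᵀ *ᵥ b) = Bᵀ * vecMulVec b b * B := by
    have h1 : Bᵀ *ᵥ b = b ᵥ* B := mulVec_transpose B b
    rw [vecMulVec_eq (Fin 1), vecMulVec_eq (Fin 1)]
    have h2 : replicateCol (Fin 1) (Bᵀ *ᵥ b) = Bᵀ * replicateCol (Fin 1) b :=
      replicateCol_mulVec Bᵀ b
    have h3 : replicateRow (Fin 1) (Bᵀ *ᵥ b) = replicateRow (Fin 1) b * B := by
      rw [h1]
      exact replicateRow_vecMul B b
    rw [h2, h3]
    simp only [Matrix.mul_assoc]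
  have e2 : M - vecMulVec (Bᵀ *ᵥ b) (Bᵀ *ᵥ b) = Bᵀ * (1 - vecMulVec b b) * B := by
    rw [e1, hB, Matrix.mul_sub, Matrix.sub_mul, Matrix.mul_one]
  have hN : (1 - vecMulVec b b : Matrix (Fin m) (Fin m) ℝ).PosDef := by
    refine posDef_iff_dotProduct_mulVec.2 ⟨?_, fun x hx => ?_⟩
    · refine IsHermitian.sub isHermitian_one ?_
      ext a b'
      simp [conjTranspose_apply, vecMulVec_apply, mul_comm]
    · simp only [star_trivial, sub_mulVec, one_mulVec, dotProduct_sub]
      have h1 : vecMulVec b b *ᵥ x = (b ⬝ᵥ x) • b := by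
        ext i
        simp only [mulVec, dotProduct, vecMulVec_apply, Pi.smul_apply, smul_eq_mul, Finset.sum_mul]
        exact Finset.sum_congr rfl fun j _ => by ring
      rw [h1, dotProduct_smul, smul_eq_mul]
      have h2 : x ⬝ᵥ x = sq x := by
        unfold sq dotProduct
        exact Finset.sum_congr rfl fun i _ => by ring
      have h3 : (b ⬝ᵥ x) ^ 2 ≤ sq b * sq x := by
        unfold sq dotProduct
        exact Finset.sum_mul_sq_le_sq_mul_sq _ _ _
      have hsx : 0 < sq x := by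
        rcases (sq_nonneg' x).lt_or_eq with h | h
        · exact h
        · exfalso
          apply hx
          funext i
          have h4 := (Finset.sum_eq_zero_iff_of_nonneg (fun i _ => sq_nonneg (x i))).1 h.symm i
            (Finset.mem_univ i)
          simpa using h4
      rw [h2, dotProduct_comm x b]
      nlinarith
  have hdN : (1 - vecMulVec b b : Matrix (Fin m) (Fin m) ℝ).det = 1 - sq b := by
    have h1 := det_one_add_replicateCol_mul_replicateRow (ι := Fin 1) (-b) b
    have h2 : (1 - vecMulVec b b : Matrix (Fin m) (Fin m) ℝ) =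
        1 + replicateCol (Fin 1) (-b) * replicateRow (Fin 1) b := by
      ext i j
      simp [vecMulVec_apply, Matrix.mul_apply, sub_eq_add_neg]
    have h3 : b ⬝ᵥ (-b) = -sq b := by
      unfold sq dotProduct
      rw [← Finset.sum_neg_distrib]
      exact Finset.sum_congr rfl fun i _ => by simp only [Pi.neg_apply]; ring
    rw [h3] at h1
    have h4 : (1 + replicateCol (Fin 1) (-b) * replicateRow (Fin 1) b).det = 1 - sq b := by
      rw [sub_eq_add_neg]
      exact h1
    exact (congrArg det h2).trans h4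
  constructor
  · rw [e2]
    have hinj : Function.Injective B.mulVec :=
      mulVec_injective_of_isUnit ((isUnit_iff_isUnit_det _).2 hBd.isUnit)
    have := hN.conjTranspose_mul_mul_same (B := B) hinj
    rwa [conjTranspose_eq_transpose_of_trivial] at this
  · rw [e2, det_mul, det_mul, hdN, hB, det_mul]
    ring

lemma MM_posDef_of {A : Fin n → Fin m → ℝ} {x : Fin m → ℝ} :
    MM (Fin.cons x A : Fin (n + 1) → Fin m → ℝ) = MM A - vecMulVec x x := MM_cons x A

section
open scoped MatrixOrder Matrix.Norms.L2Operator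

lemma exists_sqrt {M : Matrix (Fin m) (Fin m) ℝ} (hM : M.PosSemidef) :
    ∃ B : Matrix (Fin m) (Fin m) ℝ, M = Bᵀ * B := by
  obtain ⟨B, hB⟩ := CStarAlgebra.nonneg_iff_eq_star_mul_self.mp hM.nonneg
  exact ⟨B, by rw [hB]; rfl⟩

end

/-- the inner integral -/
lemma inner_ge (A : Fin n → Fin m → ℝ) (hA : (MM A).PosDef) {δ : ℝ} (hδ : 0 ≤ δ) :
    ENNReal.ofReal ((MM A).det ^ (δ + 1 / 2)) * cc m δ ≤
      ∫⁻ x : Fin m → ℝ, {x : Fin m → ℝ | (MM A - vecMulVec x x).PosDef}.indicator
        (fun x => ENNReal.ofReal ((MM A - vecMulVec x x).det ^ δ)) x := by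
  obtain ⟨B, hB⟩ := exists_sqrt hA.posSemidef
  have hMd : 0 < (MM A).det := hA.det_pos
  have hdet : (MM A).det = B.det ^ 2 := by rw [hB, det_mul, det_transpose]; ring
  have hBd : B.det ≠ 0 := by
    intro h
    rw [hdet, h] at hMd
    norm_num at hMd
  have hBt : Bᵀ.det ≠ 0 := by rwa [det_transpose]
  set F : (Fin m → ℝ) → ℝ≥0∞ := {x : Fin m → ℝ | (MM A - vecMulVec x x).PosDef}.indicator
        (fun x => ENNReal.ofReal ((MM A - vecMulVec x x).det ^ δ)) with hF
  have hmeasT : Measurable (toLin' Bᵀ) := (LinearMap.continuous_on_pi _).measurable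
  have hmap := Real.map_matrix_volume_pi_eq_smul_volume_pi hBt
  have hemb : MeasurableEmbedding (toLin' Bᵀ) := by
    have h1 : IsUnit Bᵀ := (isUnit_iff_isUnit_det _).2 hBt.isUnit
    have hinj : Function.Injective (toLin' Bᵀ) := by
      intro x y hxy
      exact mulVec_injective_of_isUnit h1 hxy
    exact (LinearEquiv.ofInjectiveEndo (toLin' Bᵀ) hinj).toContinuousLinearEquiv.toHomeomorph.measurableEmbedding
  have h1 : ∫⁻ x, F x = ENNReal.ofReal |B.det| * ∫⁻ b, F (Bᵀ *ᵥ b) := by
    have h2 : ∫⁻ b, F (Bᵀ *ᵥ b) = ∫⁻ x, F x ∂(Measure.map (toLin' Bᵀ) volume) := by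
      rw [hemb.lintegral_map]
      rfl
    rw [h2, hmap, lintegral_smul_measure, smul_eq_mul, ← mul_assoc,
      ← ENNReal.ofReal_mul (abs_nonneg _), det_transpose, ← abs_mul, mul_inv_cancel₀ hBd, abs_one,
      ENNReal.ofReal_one, one_mul]
  rw [h1]
  unfold cc
  rw [← lintegral_indicator (measurableSet_lt sq_meas measurable_const),
    ← lintegral_const_mul' _ _ ENNReal.ofReal_ne_top,
    ← lintegral_const_mul' _ _ ENNReal.ofReal_ne_top]
  refine lintegral_mono fun b => ?_
  by_cases hb : sq b < 1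
  · obtain ⟨h3, h4⟩ := step_pos hA hB hb
    rw [indicator_of_mem (show b ∈ {b | sq b < 1} from hb), hF,
      indicator_of_mem (show Bᵀ *ᵥ b ∈ {x : Fin m → ℝ | (MM A - vecMulVec x x).PosDef} from h3),
      h4, ← ENNReal.ofReal_mul (by positivity), ← ENNReal.ofReal_mul (abs_nonneg _)]
    apply ENNReal.ofReal_le_ofReal
    have e1 : |B.det| = (MM A).det ^ (1 / 2 : ℝ) := by
      rw [← Real.sqrt_eq_rpow, hdet, Real.sqrt_sq_eq_abs]
    rw [Real.mul_rpow hMd.le (by linarith), Real.rpow_add hMd, e1]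
    exact le_of_eq (by ring)
  · rw [indicator_of_notMem (show b ∉ {b | sq b < 1} from hb), mul_zero]
    exact bot_le

/-- **the recursion** -/
lemma II_succ (m n : ℕ) {δ : ℝ} (hδ : 0 ≤ δ) : II m n (δ + 1 / 2) * cc m δ ≤ II m (n + 1) δ := by
  unfold II
  have hmp := volume_preserving_piFinSuccAbove (fun _ : Fin (n + 1) => Fin m → ℝ) 0
  set e := MeasurableEquiv.piFinSuccAbove (fun _ : Fin (n + 1) => Fin m → ℝ) 0 with he
  set G : (Fin (n + 1) → Fin m → ℝ) → ℝ≥0∞ := {A | (MM A).PosDef}.indicator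
    (fun A => ENNReal.ofReal ((MM A).det ^ δ)) with hG
  have hGm : Measurable G := by
    refine Measurable.indicator ?_ posDef_meas
    have h1 : Measurable fun A : Fin (n + 1) → Fin m → ℝ => (MM A).det :=
      (MM_cont.matrix_det).measurable
    exact ENNReal.measurable_ofReal.comp (h1.pow_const δ)
  rw [← lintegral_indicator posDef_meas, ← lintegral_indicator posDef_meas]
  change _ ≤ ∫⁻ A, G A
  have h1 : ∫⁻ A, G A = ∫⁻ p : (Fin m → ℝ) × (Fin n → Fin m → ℝ), G (e.symm p) := by
    rw [(hmp.symm e).lintegral_comp hGm]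
  have h2 : ∀ p : (Fin m → ℝ) × (Fin n → Fin m → ℝ), e.symm p = Fin.cons p.1 p.2 := by
    intro p
    rw [he]
    simp [MeasurableEquiv.piFinSuccAbove, Fin.insertNthEquiv]
  have h3 : Measurable fun p : (Fin m → ℝ) × (Fin n → Fin m → ℝ) => G (e.symm p) :=
    hGm.comp e.symm.measurable
  rw [h1, Measure.volume_eq_prod, lintegral_prod_symm _ h3.aemeasurable, ← lintegral_mul_const']
  · refine lintegral_mono fun A => ?_
    by_cases hA : (MM A).PosDef
    · rw [indicator_of_mem (show A ∈ {A : Fin n → Fin m → ℝ | (MM A).PosDef} from hA)]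
      refine (inner_ge A hA hδ).trans (le_of_eq ?_)
      refine lintegral_congr fun x => ?_
      rw [h2, hG]
      by_cases hx : (MM A - vecMulVec x x).PosDef
      · have hx' : (MM (Fin.cons x A : Fin (n + 1) → Fin m → ℝ)).PosDef := by
          rw [MM_cons]; exact hx
        rw [indicator_of_mem (show x ∈ {x : Fin m → ℝ | (MM A - vecMulVec x x).PosDef} from hx),
          indicator_of_mem (show (Fin.cons x A : Fin (n + 1) → Fin m → ℝ) ∈
            {A : Fin (n + 1) → Fin m → ℝ | (MM A).PosDef} from hx'), MM_cons]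
      · have hx' : ¬ (MM (Fin.cons x A : Fin (n + 1) → Fin m → ℝ)).PosDef := by
          rw [MM_cons]; exact hx
        rw [indicator_of_notMem (show x ∉ {x : Fin m → ℝ | (MM A - vecMulVec x x).PosDef} from hx),
          indicator_of_notMem (show (Fin.cons x A : Fin (n + 1) → Fin m → ℝ) ∉
            {A : Fin (n + 1) → Fin m → ℝ | (MM A).PosDef} from hx')]
    · rw [indicator_of_notMem (show A ∉ {A : Fin n → Fin m → ℝ | (MM A).PosDef} from hA), zero_mul]
      exact bot_le
  · rw [← cc_eq m hδ]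
    exact ENNReal.ofReal_ne_top

lemma II_ge (m : ℕ) : ∀ (n : ℕ) (δ : ℝ), 0 ≤ δ →
    ∏ k ∈ Finset.range n, cc m (δ + (k:ℝ) / 2) ≤ II m n δ := by
  intro n
  induction n with
  | zero =>
    intro δ hδ
    rw [Finset.range_zero, Finset.prod_empty]
    unfold II
    have h1 : ∀ A : Fin 0 → Fin m → ℝ, MM A = 1 := fun A => by unfold MM; simp
    have h2 : {A : Fin 0 → Fin m → ℝ | (MM A).PosDef} = univ := by
      ext A
      simp only [mem_ofPred_eq, mem_univ, iff_true, h1]
      exact PosDef.one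
    rw [h2]
    simp only [h1, det_one, Real.one_rpow, ENNReal.ofReal_one, Measure.restrict_univ,
      lintegral_const, one_mul]
    rw [volume_pi, Measure.pi_univ]
    simp
  | succ n ih =>
    intro δ hδ
    rw [Finset.prod_range_succ']
    refine le_trans ?_ (II_succ m n hδ)
    refine mul_le_mul' ?_ (le_of_eq (by simp))
    refine le_trans (le_of_eq ?_) (ih (δ + 1 / 2) (by linarith))
    refine Finset.prod_congr rfl fun k _ => ?_
    congr 1
    push_cast
    ring

lemma opLe_of_posDef {A : Fin n → Fin m → ℝ} (hA : (MM A).PosDef) :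
    OpLe 1 (fun j => WithLp.toLp 2 (A j) : Fin n → Ev m) := by
  intro x
  set y : Ev m := ∑ j, x j • (WithLp.toLp 2 (A j) : Ev m) with hy
  have hys : (y : Fin m → ℝ) = ∑ j, x j • A j := by
    rw [hy]
    ext i
    simp
  have hny : ‖y‖ ^ 2 = sq (y : Fin m → ℝ) := by
    rw [EuclideanSpace.norm_sq_eq]
    unfold sq
    exact Finset.sum_congr rfl fun i _ => by rw [Real.norm_eq_abs, sq_abs]
  rw [one_pow, one_mul]
  by_cases h0 : (y : Fin m → ℝ) = 0
  · rw [hny, h0]
    simp only [sq, Pi.zero_apply]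
    have : (0:ℝ) ≤ ∑ j, x j ^ 2 := Finset.sum_nonneg fun j _ => sq_nonneg _
    simpa using this
  have h1 := (posDef_iff_dotProduct_mulVec.1 hA).2 h0
  simp only [star_trivial] at h1
  have h2 : (MM A) *ᵥ (y : Fin m → ℝ) = (y : Fin m → ℝ) - ∑ j, (A j ⬝ᵥ (y : Fin m → ℝ)) • A j := by
    unfold MM
    rw [sub_mulVec, one_mulVec, sum_mulVec]
    congr 1
    refine Finset.sum_congr rfl fun j _ => ?_
    ext i
    simp only [mulVec, dotProduct, vecMulVec_apply, Pi.smul_apply, smul_eq_mul, Finset.sum_mul]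
    exact Finset.sum_congr rfl fun k _ => by ring
  rw [h2, dotProduct_sub, dotProduct_sum] at h1
  have h3 : (y : Fin m → ℝ) ⬝ᵥ (y : Fin m → ℝ) = ‖y‖ ^ 2 := by
    rw [hny]
    unfold sq dotProduct
    exact Finset.sum_congr rfl fun i _ => by ring
  have h4 : ∑ j, (y : Fin m → ℝ) ⬝ᵥ ((A j ⬝ᵥ (y : Fin m → ℝ)) • A j) =
      ∑ j, (A j ⬝ᵥ (y : Fin m → ℝ)) ^ 2 := by
    refine Finset.sum_congr rfl fun j _ => ?_
    rw [dotProduct_smul, smul_eq_mul, dotProduct_comm]
    ring
  rw [h3, h4] at h1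
  have h5 : ‖y‖ ^ 2 = ∑ j, x j * (A j ⬝ᵥ (y : Fin m → ℝ)) := by
    rw [← h3]
    conv_lhs => rw [hys]
    rw [sum_dotProduct]
    refine Finset.sum_congr rfl fun j _ => ?_
    rw [smul_dotProduct, smul_eq_mul, hys]
  have h6 : (∑ j, x j * (A j ⬝ᵥ (y : Fin m → ℝ))) ^ 2 ≤
      (∑ j, x j ^ 2) * ∑ j, (A j ⬝ᵥ (y : Fin m → ℝ)) ^ 2 :=
    Finset.sum_mul_sq_le_sq_mul_sq _ _ _
  rw [← h5] at h6
  have h7 : 0 < ‖y‖ ^ 2 := by
    rcases (sq_nonneg ‖y‖).lt_or_eq with h | h
    · exact h
    · exfalso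
      apply h0
      have h8 : y = 0 := by
        rw [← norm_eq_zero]
        exact pow_eq_zero_iff (two_ne_zero) |>.1 h.symm
      rw [h8]
      rfl
  have h8 : (0:ℝ) ≤ ∑ j, x j ^ 2 := Finset.sum_nonneg fun j _ => sq_nonneg _
  have h9 : (‖y‖ ^ 2) ^ 2 ≤ (∑ j, x j ^ 2) * ‖y‖ ^ 2 :=
    h6.trans (mul_le_mul_of_nonneg_left (by linarith) h8)
  nlinarith

/-- **the volume of the operator norm ball** -/
theorem vol : S_vol := by
  intro m n hm
  have h1 : ENNReal.ofReal (vB m n) ≤ II m n 0 := by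
    refine le_trans (le_of_eq ?_) (II_ge m n 0 le_rfl)
    unfold vB
    have hp : ∀ k : ℕ, 0 ≤ √Real.pi ^ m * Real.Gamma ((k:ℝ) / 2 + 1) /
        Real.Gamma (((m:ℝ) + k) / 2 + 1) := by
      intro k
      have h1 : 0 < Real.Gamma ((k:ℝ) / 2 + 1) := Real.Gamma_pos_of_pos (by positivity)
      have h2 : 0 < Real.Gamma (((m:ℝ) + k) / 2 + 1) := Real.Gamma_pos_of_pos (by positivity)
      positivity
    rw [ENNReal.ofReal_prod_of_nonneg fun k _ => hp k]
    refine Finset.prod_congr rfl fun k _ => ?_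
    rw [zero_add, ← cc_eq m (by positivity : (0:ℝ) ≤ (k:ℝ) / 2)]
    congr 3
    ring
  refine h1.trans ?_
  have hmp : MeasurePreserving (fun (A : Fin n → Fin m → ℝ) (j : Fin n) =>
      (WithLp.toLp 2 (A j) : Ev m)) volume volume :=
    volume_preserving_pi fun _ => PiLp.volume_preserving_toLp (Fin m)
  have h2 : II m n 0 = volume {A : Fin n → Fin m → ℝ | (MM A).PosDef} := by
    unfold II
    simp
  rw [h2]
  have hemb : MeasurableEmbedding (fun (A : Fin n → Fin m → ℝ) (j : Fin n) =>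
      (WithLp.toLp 2 (A j) : Ev m)) :=
    (MeasurableEquiv.piCongrRight fun _ => MeasurableEquiv.toLp 2 (Fin m → ℝ)).measurableEmbedding
  rw [← hmp.measure_preimage_emb hemb]
  exact measure_mono fun A hA => opLe_of_posDef hA

end Pool.Agent.Q233.MX
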